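import Pool.Agent.Run7.h579.OG.X2

/-!
# Project OG (helper723), piece N7G (helper579)
-/

set_option autoImplicit false

namespace Pool.Agent.Run7.h579.OG

open Pool.H723.OG

section
variable {V : Type} [Fintype V] [DecidableEq V]

theorem notMem_of_lev (G : SimpleGraph V) (D : Finset V) (j : ℕ) (v : V) (hv : v ∈ lev G D j) :
    v ∉ D ∧ nb G D v = j := by
  simpa [lev] using hv

open Classical in
theorem nb_eq (G : SimpleGraph V) (D : Finset V) (v : V) :
    nb G D v = (D.filter (fun u => G.Adj u v)).card := by
  unfold nb
  congr

open Classical in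
theorem nb_erase (G : SimpleGraph V) (D : Finset V) (w v : V) (hw : w ∈ D) :
    nb G D v = nb G (D.erase w) v + (if G.Adj w v then 1 else 0) := by
  rw [nb_eq, nb_eq, Finset.filter_erase]
  split_ifs with h
  · have hm : w ∈ D.filter (fun u => G.Adj u v) := Finset.mem_filter.2 ⟨hw, h⟩
    rw [Finset.card_erase_of_mem hm]
    have := Finset.card_pos.2 ⟨w, hm⟩
    omega
  · have hm : w ∉ D.filter (fun u => G.Adj u v) := fun hh => h (Finset.mem_filter.1 hh).2
    rw [Finset.erase_eq_of_notMem hm, add_zero]

theorem nb_of_sub (G : SimpleGraph V) (D : Finset V) (x : V) (h : nbh G x ⊆ D) :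
    nb G D x = dg G x := by
  classical
  rw [nb_eq, ← card_nbh]
  congr 1
  ext u
  simp only [Finset.mem_filter, mem_nbh]
  constructor
  · rintro ⟨-, h⟩
    exact h.symm
  · intro h'
    exact ⟨h ((mem_nbh G x u).2 h'), h'.symm⟩

theorem caseC (G : SimpleGraph V) (hCC : CC G) (x y a : V) (hxy : x ≠ y) (hx : nbh G x = {a})
    (hya : G.Adj y a) (hy2 : dg G y ≤ 2) : False := by
  have hxa : G.Adj x a := by rw [← mem_nbh, hx]; simp
  have hxa' : x ≠ a := hxa.ne
  have hya' : y ≠ a := hya.ne
  have h := hCC x y a hxy hxa' hya'
  have h3 : lev G {x, y, a} 3 = ∅ := by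
    rw [Finset.eq_empty_iff_forall_notMem]
    intro v hv
    have h1 := (lev3 G x y a hxy hxa' hya' v hv).1
    have h2 := (notMem_of_lev G _ _ v hv).1
    rw [← mem_nbh, hx, Finset.mem_singleton] at h1
    exact h2 (by simp [h1])
  have h2 : lev G {x, y, a} 2 ⊆ (nbh G y).erase a := by
    intro v hv
    have h1 := (lev2 G x y a hxy hxa' hya' v hv).1
    have h2 := (notMem_of_lev G _ _ v hv).1
    simp only [Finset.mem_insert, Finset.mem_singleton, not_or] at h2
    rw [← mem_nbh G x v, hx, Finset.mem_singleton] at h1
    rcases h1 with h1 | h1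
    · exact absurd h1 h2.2.2
    · exact Finset.mem_erase.2 ⟨h2.2.2, (mem_nbh G y v).2 h1⟩
  have c2 := Finset.card_le_card h2
  rw [Finset.card_erase_of_mem ((mem_nbh G y a).2 hya), card_nbh] at c2
  rw [h3, Finset.card_empty] at h
  omega

end

theorem t_N7G (hCOST : S_COST) (hLOWA : S_LOWA) (hLOWB : S_LOWB) : S_N7G := by
  classical
  intro V _ _ G hn hG hGc hCC hlow
  have hnt : Nontrivial V := Fintype.one_lt_card_iff_nontrivial.1 (by omega)
  have hn7 : 7 ≤ Fintype.card V := hn.ge
  have hdeg : ∀ v, 1 ≤ dg G v := by
    intro v
    obtain ⟨u, hu⟩ := hG.preconnected.exists_adj_of_nontrivial v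
    rw [← card_nbh, Nat.one_le_iff_ne_zero, Finset.card_ne_zero]
    exact ⟨u, (mem_nbh G v u).2 hu⟩
  obtain ⟨x, hx, y, hy, hxy⟩ := Finset.one_lt_card.1 (by omega : 1 < (low G 2).card)
  have hx2 : dg G x ≤ 2 := by simpa [low] using hx
  have hy2 : dg G y ≤ 2 := by simpa [low] using hy
  by_cases hadj : G.Adj x y
  · exact Or.inl (hLOWA V G hn7 hG hGc hCC x y hadj hx2 hy2)
  by_cases hone : dg G x = 1 ∧ dg G y = 1
  · exact Or.inl (hLOWB V G hn7 hG hGc hCC x y hxy hone.1 hone.2)
  have hx1 := hdeg x
  have hy1 := hdeg y
  have cx := card_nbh G x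
  have cy := card_nbh G y
  set D : Finset V := nbh G x ∪ nbh G y with hD
  have hDc : D.card + (nbh G x ∩ nbh G y).card = (nbh G x).card + (nbh G y).card :=
    Finset.card_union_add_card_inter _ _
  have hsubx : nbh G x ⊆ D := Finset.subset_union_left
  have hsuby : nbh G y ⊆ D := Finset.subset_union_right
  have hxD : nb G D x = dg G x := nb_of_sub G D x hsubx
  have hyD : nb G D y = dg G y := nb_of_sub G D y hsuby
  have hxnot : x ∉ D := by
    rw [hD, Finset.mem_union, mem_nbh, mem_nbh]
    rintro (h | h)
    · exact G.loopless.irrefl x h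
    · exact hadj h.symm
  have hynot : y ∉ D := by
    rw [hD, Finset.mem_union, mem_nbh, mem_nbh]
    rintro (h | h)
    · exact hadj h
    · exact G.loopless.irrefl y h
  have hyS : y ∉ D := hynot
  have hxS : x ∉ insert y D := by
    rw [Finset.mem_insert, not_or]
    exact ⟨hxy, hxnot⟩
  have hSc : (insert x (insert y D)).card = D.card + 2 := by
    rw [Finset.card_insert_of_notMem hxS, Finset.card_insert_of_notMem hyS]
  by_cases hint : nbh G x ∩ nbh G y = ∅
  · -- case (a)
    left
    rw [hint, Finset.card_empty, add_zero] at hDc
    have hl3 : ∀ z, x ≠ z → y ≠ z → lev G {x, y, z} 3 = ∅ := by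
      intro z hxz hyz
      rw [Finset.eq_empty_iff_forall_notMem]
      intro v hv
      obtain ⟨h1, h2, -⟩ := lev3 G x y z hxy hxz hyz v hv
      have : v ∈ nbh G x ∩ nbh G y := Finset.mem_inter.2 ⟨(mem_nbh G x v).2 h1, (mem_nbh G y v).2 h2⟩
      rw [hint] at this
      simp at this
    have hl2 : ∀ z, x ≠ z → y ≠ z → lev G {x, y, z} 2 ⊆ D.filter (fun u => G.Adj u z) := by
      intro z hxz hyz v hv
      obtain ⟨h1, h2⟩ := lev2 G x y z hxy hxz hyz v hv
      have hvD : v ∈ D := by
        rw [hD, Finset.mem_union, mem_nbh, mem_nbh]
        exact h1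
      refine Finset.mem_filter.2 ⟨hvD, ?_⟩
      rcases h2 with h2 | h2
      · exfalso
        have : v ∈ nbh G x ∩ nbh G y :=
          Finset.mem_inter.2 ⟨(mem_nbh G x v).2 h2.1, (mem_nbh G y v).2 h2.2⟩
        rw [hint] at this
        simp at this
      · exact h2.symm
    have hz : ∀ z, x ≠ z → y ≠ z → 2 ≤ nb G D z := by
      intro z hxz hyz
      have h1 := hCC x y z hxy hxz hyz
      rw [hl3 z hxz hyz, Finset.card_empty] at h1
      have h2 := Finset.card_le_card (hl2 z hxz hyz)
      rw [nb_eq]
      omega
    by_cases h3 : D.card = 3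
    · apply hCOST V G D 3
      have h0 : lev G D 0 = ∅ := by
        rw [Finset.eq_empty_iff_forall_notMem]
        intro v hv
        have hv := notMem_of_lev G D 0 v hv
        by_cases h1 : x = v
        · subst h1; omega
        by_cases h2 : y = v
        · subst h2; omega
        have := hz v h1 h2
        omega
      have h1 : (lev G D 1).card ≤ 1 := by
        rw [Finset.card_le_one]
        have key : ∀ v ∈ lev G D 1, (v = x ∧ dg G x = 1) ∨ (v = y ∧ dg G y = 1) := by
          intro v hv
          have hv := notMem_of_lev G D 1 v hv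
          by_cases h1 : x = v
          · subst h1; left; exact ⟨rfl, by omega⟩
          by_cases h2 : y = v
          · subst h2; right; exact ⟨rfl, by omega⟩
          have := hz v h1 h2
          omega
        intro u hu v hv
        rcases key u hu with ⟨a1, a2⟩ | ⟨a1, a2⟩ <;> rcases key v hv with ⟨b1, b2⟩ | ⟨b1, b2⟩
        · rw [a1, b1]
        · exact absurd ⟨a2, b2⟩ hone
        · exact absurd ⟨b2, a2⟩ hone
        · rw [a1, b1]
      unfold cost2
      rw [h0, Finset.card_empty]
      omega
    · have h4 : D.card = 4 := by omega
      have hdx : dg G x = 2 := by omega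
      have hdy : dg G y = 2 := by omega
      obtain ⟨z0, hz0⟩ : ∃ z, z ∉ insert x (insert y D) := by
        by_contra hcon
        push Not at hcon
        have h1 : (Finset.univ : Finset V) ⊆ insert x (insert y D) := fun z _ => hcon z
        have h2 := Finset.card_le_card h1
        rw [Finset.card_univ] at h2
        omega
      have hz0' := hz0
      simp only [Finset.mem_insert, not_or] at hz0'
      have huni : ∀ v, v ∉ insert x (insert y D) → v = z0 := by
        intro v hv
        by_contra hne
        have h1 : (insert v (insert z0 (insert x (insert y D)))).card = D.card + 4 := by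
          rw [Finset.card_insert_of_notMem, Finset.card_insert_of_notMem hz0, hSc]
          rw [Finset.mem_insert, not_or]
          exact ⟨hne, hv⟩
        have h2 := Finset.card_le_univ (insert v (insert z0 (insert x (insert y D))))
        omega
      obtain ⟨w, hwD, hw⟩ : ∃ w ∈ D, ¬ G.Adj w z0 ∨ ∀ u ∈ D, G.Adj u z0 := by
        by_cases hex : ∃ w ∈ D, ¬ G.Adj w z0
        · obtain ⟨w, h1, h2⟩ := hex
          exact ⟨w, h1, Or.inl h2⟩
        · push Not at hex
          obtain ⟨w, hw⟩ := Finset.card_pos.1 (by omega : 0 < D.card)
          exact ⟨w, hw, Or.inr hex⟩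
      have hwx : x ≠ w := fun h => hxnot (h ▸ hwD)
      have hwy : y ≠ w := fun h => hynot (h ▸ hwD)
      have hnotboth : ¬ (G.Adj w x ∧ G.Adj w y) := by
        rintro ⟨h1, h2⟩
        have : w ∈ nbh G x ∩ nbh G y :=
          Finset.mem_inter.2 ⟨(mem_nbh G x w).2 h1.symm, (mem_nbh G y w).2 h2.symm⟩
        rw [hint] at this
        simp at this
      have hw2 : 2 ≤ nb G (D.erase w) w := by
        have h1 := nb_erase G D w w hwD
        rw [if_neg (G.loopless.irrefl w)] at h1
        have h2 := hz w hwx hwy
        omega
      have hz02 : 2 ≤ nb G (D.erase w) z0 := by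
        have h1 := nb_erase G D w z0 hwD
        have h2 := hz z0 (fun h => hz0'.1 h.symm) (fun h => hz0'.2.1 h.symm)
        rcases hw with hw | hw
        · rw [if_neg hw] at h1
          omega
        · rw [if_pos (hw w hwD)] at h1
          have h3 : nb G D z0 = D.card := by
            rw [nb_eq]
            congr 1
            exact Finset.filter_true_of_mem hw
          omega
      have hxe := nb_erase G D w x hwD
      have hye := nb_erase G D w y hwD
      have hcls : ∀ v, v ∉ D.erase w → v = x ∨ v = y ∨ v = w ∨ v = z0 := by
        intro v hv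
        by_cases hvD : v ∈ D
        · right; right; left
          by_contra hne
          exact hv (Finset.mem_erase.2 ⟨hne, hvD⟩)
        · by_cases h1 : v = x
          · exact Or.inl h1
          by_cases h2 : v = y
          · exact Or.inr (Or.inl h2)
          right; right; right
          apply huni
          simp only [Finset.mem_insert, not_or]
          exact ⟨h1, h2, hvD⟩
      apply hCOST V G (D.erase w) 3
      have h0 : lev G (D.erase w) 0 = ∅ := by
        rw [Finset.eq_empty_iff_forall_notMem]
        intro v hv
        have hv := notMem_of_lev G _ 0 v hv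
        rcases hcls v hv.1 with rfl | rfl | rfl | rfl
        · split_ifs at hxe <;> omega
        · split_ifs at hye <;> omega
        · omega
        · omega
      have h1 : (lev G (D.erase w) 1).card ≤ 1 := by
        rw [Finset.card_le_one]
        have key : ∀ v ∈ lev G (D.erase w) 1, (v = x ∧ G.Adj w x) ∨ (v = y ∧ G.Adj w y) := by
          intro v hv
          have hv := notMem_of_lev G _ 1 v hv
          rcases hcls v hv.1 with h | h | h | h
          · left
            refine ⟨h, ?_⟩
            by_contra hcon
            rw [if_neg hcon] at hxe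
            rw [h] at hv
            omega
          · right
            refine ⟨h, ?_⟩
            by_contra hcon
            rw [if_neg hcon] at hye
            rw [h] at hv
            omega
          · rw [h] at hv
            omega
          · rw [h] at hv
            omega
        intro u hu v hv
        rcases key u hu with ⟨a1, a2⟩ | ⟨a1, a2⟩ <;> rcases key v hv with ⟨b1, b2⟩ | ⟨b1, b2⟩
        · rw [a1, b1]
        · exact absurd ⟨a2, b2⟩ hnotboth
        · exact absurd ⟨b2, a2⟩ hnotboth
        · rw [a1, b1]
      have h5 : (D.erase w).card = 3 := by rw [Finset.card_erase_of_mem hwD]; omega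
      unfold cost2
      rw [h0, Finset.card_empty]
      omega
  · obtain ⟨a, ha⟩ := Finset.nonempty_iff_ne_empty.2 hint
    have ha' := Finset.mem_inter.1 ha
    have hxa : G.Adj x a := (mem_nbh G x a).1 ha'.1
    have hya : G.Adj y a := (mem_nbh G y a).1 ha'.2
    have hxa' : x ≠ a := hxa.ne
    have hya' : y ≠ a := hya.ne
    have cpos : 0 < (nbh G x ∩ nbh G y).card := Finset.card_pos.2 ⟨a, ha⟩
    have cle1 : (nbh G x ∩ nbh G y).card ≤ (nbh G x).card := Finset.card_le_card Finset.inter_subset_left
    have cle2 : (nbh G x ∩ nbh G y).card ≤ (nbh G y).card := Finset.card_le_card Finset.inter_subset_right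
    -- case (c)
    have hdx : dg G x = 2 := by
      by_contra hne
      have h1 : (nbh G x).card = 1 := by omega
      obtain ⟨a1, h2⟩ := Finset.card_eq_one.1 h1
      have h3 : a1 = a := by
        have := ha'.1
        rw [h2, Finset.mem_singleton] at this
        exact this.symm
      rw [h3] at h2
      exact caseC G hCC x y a hxy h2 hya hy2
    have hdy : dg G y = 2 := by
      by_contra hne
      have h1 : (nbh G y).card = 1 := by omega
      obtain ⟨a1, h2⟩ := Finset.card_eq_one.1 h1
      have h3 : a1 = a := by
        have := ha'.2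
        rw [h2, Finset.mem_singleton] at this
        exact this.symm
      rw [h3] at h2
      exact caseC G hCC y x a hxy.symm h2 hxa hx2
    by_cases hc2 : (nbh G x ∩ nbh G y).card = 2
    · -- case (d)
      right
      have e1 : nbh G x ∩ nbh G y = nbh G x :=
        Finset.eq_of_subset_of_card_le Finset.inter_subset_left (by omega)
      have e2 : nbh G x ∩ nbh G y = nbh G y :=
        Finset.eq_of_subset_of_card_le Finset.inter_subset_right (by omega)
      obtain ⟨a1, b1, hab, hN⟩ := Finset.card_eq_two.1 (show (nbh G x).card = 2 by omega)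
      have hNy : nbh G y = {a1, b1} := by rw [← hN, ← e1, e2]
      have hxa1 : G.Adj x a1 := by rw [← mem_nbh, hN]; simp
      have hya1 : G.Adj y a1 := by rw [← mem_nbh, hNy]; simp
      have hab' : G.Adj a1 b1 := by
        by_contra hcon
        have h := hCC x y a1 hxy hxa1.ne hya1.ne
        have h3 : lev G {x, y, a1} 3 = ∅ := by
          rw [Finset.eq_empty_iff_forall_notMem]
          intro v hv
          obtain ⟨p1, -, p3⟩ := lev3 G x y a1 hxy hxa1.ne hya1.ne v hv
          have h2 := (notMem_of_lev G _ _ v hv).1
          simp only [Finset.mem_insert, Finset.mem_singleton, not_or] at h2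
          rw [← mem_nbh, hN, Finset.mem_insert, Finset.mem_singleton] at p1
          rcases p1 with p1 | p1
          · exact h2.2.2 p1
          · rw [p1] at p3
            exact hcon p3
        have h2 : lev G {x, y, a1} 2 ⊆ {b1} := by
          intro v hv
          have p1 := (lev2 G x y a1 hxy hxa1.ne hya1.ne v hv).1
          have h2 := (notMem_of_lev G _ _ v hv).1
          simp only [Finset.mem_insert, Finset.mem_singleton, not_or] at h2
          rw [← mem_nbh G x v, ← mem_nbh G y v, hN, hNy, or_self, Finset.mem_insert] at p1
          rcases p1 with p1 | p1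
          · exact absurd p1 h2.2.2
          · exact p1
        have c2 := Finset.card_le_card h2
        rw [Finset.card_singleton] at c2
        rw [h3, Finset.card_empty] at h
        omega
      refine ⟨x, y, a1, b1, hxy, hab, hab', fun v => ?_, fun v => ?_⟩
      · rw [← mem_nbh, hN]; simp
      · rw [← mem_nbh, hNy]; simp
    · -- case (b)
      left
      have hc1 : (nbh G x ∩ nbh G y).card = 1 := by omega
      have hD3 : D.card = 3 := by omega
      have hinta : nbh G x ∩ nbh G y = {a} := by
        obtain ⟨a1, h2⟩ := Finset.card_eq_one.1 hc1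
        have := ha
        rw [h2, Finset.mem_singleton] at this
        rw [h2, this]
      set R : Finset V := (insert x (insert y D))ᶜ with hR
      have hRc : R.card = 2 := by
        rw [hR, Finset.card_compl, hSc]
        omega
      have hRmem : ∀ z, z ∈ R ↔ z ≠ x ∧ z ≠ y ∧ z ∉ D := by
        intro z
        rw [hR, Finset.mem_compl]
        simp only [Finset.mem_insert, not_or]
      have hzR : ∀ z ∈ R, 1 ≤ nb G D z := by
        intro z hz
        obtain ⟨q1, q2, q3⟩ := (hRmem z).1 hz
        by_contra hcon
        have hnone : ∀ u ∈ D, ¬ G.Adj u z := by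
          intro u hu hadj'
          have : 0 < nb G D z := by
            rw [nb_eq]
            exact Finset.card_pos.2 ⟨u, Finset.mem_filter.2 ⟨hu, hadj'⟩⟩
          omega
        have hxz : x ≠ z := fun h => q1 h.symm
        have hyz : y ≠ z := fun h => q2 h.symm
        have h := hCC x y z hxy hxz hyz
        have h3 : lev G {x, y, z} 3 = ∅ := by
          rw [Finset.eq_empty_iff_forall_notMem]
          intro v hv
          obtain ⟨p1, -, p3⟩ := lev3 G x y z hxy hxz hyz v hv
          exact hnone v (hsubx ((mem_nbh G x v).2 p1)) p3.symm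
        have h2 : lev G {x, y, z} 2 ⊆ {a} := by
          intro v hv
          obtain ⟨p1, p2⟩ := lev2 G x y z hxy hxz hyz v hv
          rcases p2 with p2 | p2
          · rw [← hinta]
            exact Finset.mem_inter.2 ⟨(mem_nbh G x v).2 p2.1, (mem_nbh G y v).2 p2.2⟩
          · exfalso
            refine hnone v ?_ p2.symm
            rcases p1 with p1 | p1
            · exact hsubx ((mem_nbh G x v).2 p1)
            · exact hsuby ((mem_nbh G y v).2 p1)
        have c2 := Finset.card_le_card h2
        rw [Finset.card_singleton] at c2
        rw [h3, Finset.card_empty] at h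
        omega
      have h0 : lev G D 0 = ∅ := by
        rw [Finset.eq_empty_iff_forall_notMem]
        intro v hv
        have hv := notMem_of_lev G D 0 v hv
        by_cases h1 : v = x
        · subst h1; omega
        by_cases h2 : v = y
        · subst h2; omega
        have := hzR v ((hRmem v).2 ⟨h1, h2, hv.1⟩)
        omega
      have hsub1 : lev G D 1 ⊆ R := by
        intro v hv
        have hv := notMem_of_lev G D 1 v hv
        rw [hRmem]
        refine ⟨?_, ?_, hv.1⟩
        · rintro rfl; omega
        · rintro rfl; omega
      by_cases hlev : (lev G D 1).card ≤ 1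
      · apply hCOST V G D 3
        unfold cost2
        rw [h0, Finset.card_empty]
        omega
      · have heq : lev G D 1 = R := Finset.eq_of_subset_of_card_le hsub1 (by omega)
        obtain ⟨z1, z2, hzz, hR2⟩ := Finset.card_eq_two.1 hRc
        have hz1 : z1 ∈ R := by rw [hR2]; simp
        have hz2 : z2 ∈ R := by rw [hR2]; simp
        -- neighbours of a vertex of R
        have hnbR : ∀ z ∈ R, nbh G z ⊆ (D.filter (fun u => G.Adj u z)) ∪ (R.erase z) := by
          intro z hz u hu
          have hzu : G.Adj z u := (mem_nbh G z u).1 hu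
          obtain ⟨q1, q2, q3⟩ := (hRmem z).1 hz
          rw [Finset.mem_union]
          by_cases huD : u ∈ D
          · left
            exact Finset.mem_filter.2 ⟨huD, hzu.symm⟩
          · right
            refine Finset.mem_erase.2 ⟨hzu.ne', (hRmem u).2 ⟨?_, ?_, huD⟩⟩
            · rintro rfl
              exact q3 (hsubx ((mem_nbh G _ z).2 hzu.symm))
            · rintro rfl
              exact q3 (hsuby ((mem_nbh G _ z).2 hzu.symm))
        have hnb1 : ∀ z ∈ R, (D.filter (fun u => G.Adj u z)).card = 1 := by
          intro z hz
          rw [← heq] at hz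
          rw [← nb_eq]
          exact (notMem_of_lev G D 1 z hz).2
        have hdg2 : ∀ z ∈ R, dg G z ≤ 2 := by
          intro z hz
          rw [← card_nbh]
          have h1 := Finset.card_le_card (hnbR z hz)
          have h2 := Finset.card_union_le (D.filter (fun u => G.Adj u z)) (R.erase z)
          rw [Finset.card_erase_of_mem hz, hnb1 z hz] at h2
          omega
        by_cases hzadj : G.Adj z1 z2
        · exact hLOWA V G hn7 hG hGc hCC z1 z2 hzadj (hdg2 z1 hz1) (hdg2 z2 hz2)
        · have hdg1 : ∀ z ∈ R, ∀ z' ∈ R, z ≠ z' → ¬ G.Adj z z' → dg G z = 1 := by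
            intro z hz z' hz' hne hna
            have hRe : R.erase z = {z'} := by
              have h1 : z' ∈ R.erase z := Finset.mem_erase.2 ⟨hne.symm, hz'⟩
              have h2 : (R.erase z).card = 1 := by
                rw [Finset.card_erase_of_mem hz]; omega
              obtain ⟨q, hq⟩ := Finset.card_eq_one.1 h2
              rw [hq, Finset.mem_singleton] at h1
              rw [hq, h1]
            have h1 : nbh G z ⊆ D.filter (fun u => G.Adj u z) := by
              intro u hu
              have h2 := hnbR z hz hu
              rw [Finset.mem_union] at h2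
              rcases h2 with h2 | h2
              · exact h2
              · exfalso
                rw [hRe, Finset.mem_singleton] at h2
                rw [h2] at hu
                exact hna ((mem_nbh G z z').1 hu)
            have h2 := Finset.card_le_card h1
            rw [hnb1 z hz, card_nbh] at h2
            have h3 := hdeg z
            omega
          exact hLOWB V G hn7 hG hGc hCC z1 z2 hzz (hdg1 z1 hz1 z2 hz2 hzz hzadj)
            (hdg1 z2 hz2 z1 hz1 hzz.symm (fun h => hzadj h.symm))

end Pool.Agent.Run7.h579.OG
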