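import Pool.Agent.Run7.h723.OG.Iface2

/-!
# Project OG (helper723), piece X2 (helper579)
-/

set_option autoImplicit false

namespace Pool.Agent.Run7.h579.OG

open Pool.H723.OG

section
variable {V : Type} [Fintype V] [DecidableEq V]

open Classical in
/-- the neighbourhood -/
noncomputable def nbh (G : SimpleGraph V) (x : V) : Finset V :=
  Finset.univ.filter (fun v => G.Adj x v)

theorem mem_nbh (G : SimpleGraph V) (x v : V) : v ∈ nbh G x ↔ G.Adj x v := by
  simp [nbh]

theorem card_nbh (G : SimpleGraph V) (x : V) : (nbh G x).card = dg G x := by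
  unfold nbh dg
  congr 1
  ext v
  simp [SimpleGraph.adj_comm]

open Classical in
theorem nb_triple (G : SimpleGraph V) (x y z v : V) (hxy : x ≠ y) (hxz : x ≠ z) (hyz : y ≠ z) :
    nb G {x, y, z} v = (if G.Adj x v then 1 else 0) + (if G.Adj y v then 1 else 0) +
      (if G.Adj z v then 1 else 0) := by
  unfold nb
  have h : ((({x, y, z} : Finset V)).filter (fun u => G.Adj u v)).card =
      ∑ u ∈ ({x, y, z} : Finset V), if G.Adj u v then 1 else 0 := by
    rw [Finset.card_filter]
  have h2 : ∑ u ∈ ({x, y, z} : Finset V), (if G.Adj u v then 1 else 0) =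
      (if G.Adj x v then 1 else 0) + (if G.Adj y v then 1 else 0) +
      (if G.Adj z v then 1 else 0) := by
    rw [Finset.sum_insert (by simp [hxy, hxz]), Finset.sum_insert (by simp [hyz]),
      Finset.sum_singleton, add_assoc]
  rw [← h2, ← h]

theorem lev3 (G : SimpleGraph V) (x y z : V) (hxy : x ≠ y) (hxz : x ≠ z) (hyz : y ≠ z) (v : V)
    (hv : v ∈ lev G {x, y, z} 3) : G.Adj x v ∧ G.Adj y v ∧ G.Adj z v := by
  classical
  simp only [lev, Finset.mem_filter, Finset.mem_univ, true_and] at hv
  have h := hv.2
  rw [nb_triple G x y z v hxy hxz hyz] at h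
  split_ifs at h with h1 h2 h3 <;> first | exact ⟨h1, h2, h3⟩ | omega

theorem lev2 (G : SimpleGraph V) (x y z : V) (hxy : x ≠ y) (hxz : x ≠ z) (hyz : y ≠ z) (v : V)
    (hv : v ∈ lev G {x, y, z} 2) :
    (G.Adj x v ∨ G.Adj y v) ∧ ((G.Adj x v ∧ G.Adj y v) ∨ G.Adj z v) := by
  classical
  simp only [lev, Finset.mem_filter, Finset.mem_univ, true_and] at hv
  have h := hv.2
  rw [nb_triple G x y z v hxy hxz hyz] at h
  split_ifs at h with h1 h2 h3 h2 h3 h3 h3 <;> first | tauto | omega

theorem disj_lev (G : SimpleGraph V) (D : Finset V) (i j : ℕ) (h : i ≠ j) :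
    Disjoint (lev G D i) (lev G D j) := by
  rw [Finset.disjoint_left]
  intro v h1 h2
  simp only [lev, Finset.mem_filter, Finset.mem_univ, true_and] at h1 h2
  exact h (h1.2.symm.trans h2.2)

end

theorem t_X2 (hCOST : S_COST) (hTRI : S_TRI) (hLOWA : S_LOWA) (hLOWB : S_LOWB) : S_X2 := by
  classical
  intro V _ _ G hn hG hGc hCC hlow
  have hnt : Nontrivial V := Fintype.one_lt_card_iff_nontrivial.1 (by omega)
  have hdeg : ∀ v, 1 ≤ dg G v := by
    intro v
    obtain ⟨u, hu⟩ := hG.preconnected.exists_adj_of_nontrivial v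
    rw [← card_nbh, Nat.one_le_iff_ne_zero, Finset.card_ne_zero]
    exact ⟨u, (mem_nbh G v u).2 hu⟩
  obtain ⟨x, hx, y, hy, hxy⟩ := Finset.one_lt_card.1 (by omega : 1 < (low G 2).card)
  have hx2 : dg G x ≤ 2 := by simpa [low] using hx
  have hy2 : dg G y ≤ 2 := by simpa [low] using hy
  by_cases hadj : G.Adj x y
  · exact Or.inl (hLOWA V G hn hG hGc hCC x y hadj hx2 hy2)
  by_cases hone : dg G x = 1 ∧ dg G y = 1
  · exact Or.inl (hLOWB V G hn hG hGc hCC x y hxy hone.1 hone.2)
  right
  have hx1 := hdeg x
  have hy1 := hdeg y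
  have cx := card_nbh G x
  have cy := card_nbh G y
  set D : Finset V := nbh G x ∪ nbh G y with hD
  have hDc : D.card + (nbh G x ∩ nbh G y).card = (nbh G x).card + (nbh G y).card :=
    Finset.card_union_add_card_inter _ _
  by_cases hint : nbh G x ∩ nbh G y = ∅
  · -- case (i)
    right
    rw [hint, Finset.card_empty, add_zero] at hDc
    have hl3 : ∀ z, x ≠ z → y ≠ z → lev G {x, y, z} 3 = ∅ := by
      intro z hxz hyz
      rw [Finset.eq_empty_iff_forall_notMem]
      intro v hv
      obtain ⟨h1, h2, -⟩ := lev3 G x y z hxy hxz hyz v hv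
      have : v ∈ nbh G x ∩ nbh G y := Finset.mem_inter.2 ⟨(mem_nbh G x v).2 h1, (mem_nbh G y v).2 h2⟩
      rw [hint] at this
      simp at this
    have hl2 : ∀ z, x ≠ z → y ≠ z → lev G {x, y, z} 2 ⊆ D.filter (fun u => G.Adj u z) := by
      intro z hxz hyz v hv
      obtain ⟨h1, h2⟩ := lev2 G x y z hxy hxz hyz v hv
      have hvD : v ∈ D := by
        rw [hD, Finset.mem_union, mem_nbh, mem_nbh]
        exact h1
      refine Finset.mem_filter.2 ⟨hvD, ?_⟩
      rcases h2 with h2 | h2
      · exfalso
        have : v ∈ nbh G x ∩ nbh G y :=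
          Finset.mem_inter.2 ⟨(mem_nbh G x v).2 h2.1, (mem_nbh G y v).2 h2.2⟩
        rw [hint] at this
        simp at this
      · exact h2.symm
    constructor
    · -- Le G 4
      apply hCOST V G D 4
      have hnbD : ∀ v, nb G D v = (D.filter (fun u => G.Adj u v)).card := by
        intro v
        unfold nb
        congr
      have hz : ∀ z, x ≠ z → y ≠ z → 2 ≤ nb G D z := by
        intro z hxz hyz
        have h1 := hCC x y z hxy hxz hyz
        rw [hl3 z hxz hyz, Finset.card_empty] at h1
        have h2 := Finset.card_le_card (hl2 z hxz hyz)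
        rw [hnbD]
        omega
      have hxD : nb G D x = dg G x := by
        rw [hnbD, ← cx]
        congr 1
        ext u
        simp only [Finset.mem_filter, hD, Finset.mem_union, mem_nbh]
        constructor
        · rintro ⟨-, h⟩
          exact h.symm
        · intro h
          exact ⟨Or.inl h, h.symm⟩
      have hyD : nb G D y = dg G y := by
        rw [hnbD, ← cy]
        congr 1
        ext u
        simp only [Finset.mem_filter, hD, Finset.mem_union, mem_nbh]
        constructor
        · rintro ⟨-, h⟩
          exact h.symm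
        · intro h
          exact ⟨Or.inr h, h.symm⟩
      have h0 : lev G D 0 = ∅ := by
        rw [Finset.eq_empty_iff_forall_notMem]
        intro v hv
        simp only [lev, Finset.mem_filter, Finset.mem_univ, true_and] at hv
        by_cases h1 : x = v
        · subst h1; omega
        by_cases h2 : y = v
        · subst h2; omega
        have := hz v h1 h2
        omega
      have h1 : (lev G D 1).card ≤ 1 := by
        rw [Finset.card_le_one]
        have key : ∀ v ∈ lev G D 1, (v = x ∧ dg G x = 1) ∨ (v = y ∧ dg G y = 1) := by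
          intro v hv
          simp only [lev, Finset.mem_filter, Finset.mem_univ, true_and] at hv
          by_cases h1 : x = v
          · subst h1; left; exact ⟨rfl, by omega⟩
          by_cases h2 : y = v
          · subst h2; right; exact ⟨rfl, by omega⟩
          have := hz v h1 h2
          omega
        intro u hu v hv
        rcases key u hu with ⟨a1, a2⟩ | ⟨a1, a2⟩ <;> rcases key v hv with ⟨b1, b2⟩ | ⟨b1, b2⟩
        · rw [a1, b1]
        · exact absurd ⟨a2, b2⟩ hone
        · exact absurd ⟨b2, a2⟩ hone
        · rw [a1, b1]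
      unfold cost2
      rw [h0, Finset.card_empty]
      omega
    · -- Le Gᶜ 5
      obtain ⟨z, hz⟩ : ∃ z, z ∉ ({x, y} : Finset V) := by
        by_contra hcon
        push Not at hcon
        have h1 : (Finset.univ : Finset V) ⊆ {x, y} := fun z _ => hcon z
        have h2 := Finset.card_le_card h1
        have h3 := Finset.card_le_two (a := x) (b := y)
        rw [Finset.card_univ] at h2
        omega
      simp only [Finset.mem_insert, Finset.mem_singleton, not_or] at hz
      have hxz : x ≠ z := fun h => hz.1 h.symm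
      have hyz : y ≠ z := fun h => hz.2 h.symm
      have h5 := hTRI V G x y z 2 hxy hxz hyz (by
        rw [hl3 z hxz hyz, Finset.card_empty]
        have h2 := Finset.card_le_card (hl2 z hxz hyz)
        have h3 := Finset.card_filter_le D (fun u => G.Adj u z)
        omega)
      exact h5
  · -- case (ii)
    left
    obtain ⟨a, ha⟩ := Finset.nonempty_iff_ne_empty.2 hint
    have ha' := Finset.mem_inter.1 ha
    have hxa : G.Adj x a := (mem_nbh G x a).1 ha'.1
    have hya : G.Adj y a := (mem_nbh G y a).1 ha'.2
    obtain ⟨z, hz⟩ := hGc.preconnected.exists_adj_of_nontrivial a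
    rw [SimpleGraph.compl_adj] at hz
    have hxz : x ≠ z := by
      rintro rfl
      exact hz.2 hxa.symm
    have hyz : y ≠ z := by
      rintro rfl
      exact hz.2 hya.symm
    have h4 := hTRI V G x y z 1 hxy hxz hyz (by
      have s3 : lev G {x, y, z} 3 ⊆ (nbh G x ∩ nbh G y).erase a := by
        intro v hv
        obtain ⟨h1, h2, h3⟩ := lev3 G x y z hxy hxz hyz v hv
        rw [Finset.mem_erase, Finset.mem_inter, mem_nbh, mem_nbh]
        refine ⟨?_, h1, h2⟩
        rintro rfl
        exact hz.2 h3.symm
      have s23 : lev G {x, y, z} 3 ∪ lev G {x, y, z} 2 ⊆ D := by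
        intro v hv
        rw [hD, Finset.mem_union, mem_nbh, mem_nbh]
        rcases Finset.mem_union.1 hv with hv | hv
        · exact Or.inl (lev3 G x y z hxy hxz hyz v hv).1
        · exact (lev2 G x y z hxy hxz hyz v hv).1
      have c3 := Finset.card_le_card s3
      rw [Finset.card_erase_of_mem ha] at c3
      have c23 := Finset.card_le_card s23
      rw [Finset.card_union_of_disjoint (disj_lev G _ 3 2 (by norm_num))] at c23
      have cpos : 0 < (nbh G x ∩ nbh G y).card := Finset.card_pos.2 ⟨a, ha⟩
      omega)
    exact h4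

end Pool.Agent.Run7.h579.OG
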